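import Pool.Agent.J4H45.GT.Stm0

set_option autoImplicit false

/-! Project GT (COL): one column. -/

namespace Pool.Agent.J4H21.GT

open Finset Pool.Agent.J4H45.GT

/-- the mean of a product of independent factors -/
theorem sumprod {k : ℕ} (h : Fin k → Bool → Bool → ℂ) :
    ∑ x : Fin k → Bool, ∑ x' : Fin k → Bool, ∏ i, h i (x i) (x' i) = ∏ i, ∑ b, ∑ b', h i b b' := by
  have h1 : ∀ i, ∑ b, ∑ b', h i b b' = ∑ p : Bool × Bool, h i p.1 p.2 := fun i => by
    rw [Fintype.sum_prod_type]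
  simp only [h1]
  rw [Finset.prod_univ_sum, Fintype.piFinset_univ]
  rw [← Fintype.sum_prod_type (f := fun q : (Fin k → Bool) × (Fin k → Bool) => ∏ i, h i (q.1 i) (q.2 i))]
  refine Fintype.sum_equiv
    (Equiv.arrowProdEquivProdArrow (Fin k) (fun _ => Bool) (fun _ => Bool)).symm _ _ ?_
  rintro ⟨x, x'⟩
  simp [Equiv.arrowProdEquivProdArrow]

/-- `1`, `z`, `conj z` -/
noncomputable def v (j : Fin 3) (z : ℂ) : ℂ := if j = 0 then 1 else if j = 1 then z else (starRingEnd ℂ) z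

noncomputable def kp (j : Fin 3) : ℂ := if j = 0 then 1 / 2 else 1 / 4

noncomputable def mm (r : ℝ) (j : Fin 3) : ℂ := if j = 0 then 1 else ((1 + r) / 2 : ℝ)

theorem v_prod {ι : Type} (j : Fin 3) (s : Finset ι) (f : ι → ℂ) : v j (∏ i ∈ s, f i) = ∏ i ∈ s, v j (f i) := by
  unfold v
  split_ifs
  · simp
  · rfl
  · exact map_prod _ _ _

theorem sq_add {z : ℂ} (hz : ‖z‖ = 1) : ‖1 + z‖ ^ 2 = 2 + 2 * z.re := by
  have h : z.re ^ 2 + z.im ^ 2 = 1 := by
    have := Complex.sq_norm z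
    rw [hz, Complex.normSq_apply] at this
    linarith
  rw [Complex.sq_norm, Complex.normSq_apply]
  simp only [Complex.add_re, Complex.one_re, Complex.add_im, Complex.one_im, zero_add]
  nlinarith

theorem sq_sub {z : ℂ} (hz : ‖z‖ = 1) : ‖1 - z‖ ^ 2 = 2 - 2 * z.re := by
  have := sq_add (z := -z) (by rw [norm_neg]; exact hz)
  rw [← sub_eq_add_neg] at this
  rw [this, Complex.neg_re]; ring

theorem kv {z : ℂ} (hz : ‖z‖ = 1) : (((‖1 + z‖ / 2) ^ 2 : ℝ) : ℂ) = ∑ j, kp j * v j z := by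
  rw [Fin.sum_univ_three, div_pow, sq_add hz]
  simp only [kp, v, if_true, Fin.isValue, one_ne_zero, if_false, Fin.reduceEq]
  have : z + (starRingEnd ℂ) z = ((2 * z.re : ℝ) : ℂ) := Complex.add_conj z
  push_cast at this ⊢
  linear_combination (-1/4 : ℂ) * this

theorem conj_mul_self' {z : ℂ} (hz : ‖z‖ = 1) : z * (starRingEnd ℂ) z = 1 := by
  rw [Complex.mul_conj, Complex.normSq_eq_norm_sq, hz]; norm_num

theorem u_sum {z : ℂ} (hz : ‖z‖ = 1) (j : Fin 3) :
    ∑ b, ∑ b', v j (tw z b * (starRingEnd ℂ) (tw z b')) = 4 * mm z.re j := by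
  have h1 := conj_mul_self' hz
  have h2 : z + (starRingEnd ℂ) z = ((2 * z.re : ℝ) : ℂ) := Complex.add_conj z
  push_cast at h2
  simp only [Fintype.sum_bool, tw, v, mm, if_true, Bool.false_eq_true, if_false, map_one, mul_one, one_mul]
  split_ifs
  · norm_num
  · rw [h1]; push_cast; linear_combination h2
  · rw [map_mul, Complex.conj_conj, mul_comm ((starRingEnd ℂ) z) z, h1]; push_cast; linear_combination h2

theorem u_sq {z : ℂ} (hz : ‖z‖ = 1) :
    ∑ b, ∑ b', (tw z b * (starRingEnd ℂ) (tw z b')) ^ 2 = ((4 * z.re ^ 2 : ℝ) : ℂ) := by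
  have h1 := conj_mul_self' hz
  have h2 : z + (starRingEnd ℂ) z = ((2 * z.re : ℝ) : ℂ) := Complex.add_conj z
  push_cast at h2
  simp only [Fintype.sum_bool, tw, if_true, Bool.false_eq_true, if_false, map_one, mul_one, one_mul]
  rw [h1]
  push_cast
  have h3 : (z + (starRingEnd ℂ) z) ^ 2 = (2 * z.re) ^ 2 := by rw [h2]
  linear_combination h3 - 2 * h1

theorem tw_norm {z : ℂ} (hz : ‖z‖ = 1) (b : Bool) : ‖tw z b‖ = 1 := by
  unfold tw; split_ifs
  · exact hz
  · simp

/-- the product over a fibre -/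
noncomputable def Xi {k : ℕ} {O : Type} [DecidableEq O] (ζ : Fin k → ℂ) (o : Fin k → O) (a : O)
    (x x' : Fin k → Bool) : ℂ :=
  ∏ i ∈ univ.filter (fun i => o i = a), (tw (ζ i) (x i) * (starRingEnd ℂ) (tw (ζ i) (x' i)))

section

variable {k : ℕ} {O : Type} [Fintype O] [DecidableEq O] {ζ : Fin k → ℂ} (o : Fin k → O)

theorem Xi_norm (hζ : ∀ i, ‖ζ i‖ = 1) (a : O) (x x' : Fin k → Bool) : ‖Xi ζ o a x x'‖ = 1 := by
  unfold Xi
  rw [norm_prod]
  refine Finset.prod_eq_one fun i _ => ?_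
  rw [norm_mul, RCLike.norm_conj, tw_norm (hζ i), tw_norm (hζ i), mul_one]

theorem YY_eq (x x' : Fin k → Bool) : YY ζ o x x' = ∏ a, (‖1 + Xi ζ o a x x'‖ / 2) := rfl

theorem fac (hζ : ∀ i, ‖ζ i‖ = 1) (a : O) (x x' : Fin k → Bool) :
    0 ≤ ‖1 + Xi ζ o a x x'‖ / 2 ∧ ‖1 + Xi ζ o a x x'‖ / 2 ≤ 1 ∧
    (‖1 + Xi ζ o a x x'‖ / 2) ^ 2 = (1 + (Xi ζ o a x x').re) / 2 := by
  have h := Xi_norm o hζ a x x'
  refine ⟨by positivity, ?_, ?_⟩
  · have := norm_add_le (1 : ℂ) (Xi ζ o a x x')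
    rw [h, norm_one] at this; linarith
  · rw [div_pow, sq_add h]; ring

/-- the mean of `Xi` -/
theorem mean_Xi (hζ : ∀ i, ‖ζ i‖ = 1) (a : O) :
    ∑ x : Fin k → Bool, ∑ x' : Fin k → Bool, Xi ζ o a x x' =
      (4 ^ k * ∏ i ∈ univ.filter (fun i => o i = a), ((1 + (ζ i).re) / 2) : ℝ) := by
  have h1 : ∀ x x' : Fin k → Bool, Xi ζ o a x x' = ∏ i, (if o i = a then
      (tw (ζ i) (x i) * (starRingEnd ℂ) (tw (ζ i) (x' i))) else 1) := fun x x' => by
    rw [Xi, Finset.prod_filter]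
  simp only [h1]
  rw [sumprod (fun i b b' => if o i = a then (tw (ζ i) b * (starRingEnd ℂ) (tw (ζ i) b')) else 1)]
  have h2 : ∀ i, (∑ b, ∑ b', if o i = a then (tw (ζ i) b * (starRingEnd ℂ) (tw (ζ i) b')) else 1) =
      4 * (if o i = a then (((1 + (ζ i).re) / 2 : ℝ) : ℂ) else 1) := by
    intro i
    split_ifs with h
    · have := u_sum (hζ i) 1
      simp only [v, mm, if_true, Fin.isValue, one_ne_zero, if_false] at this
      exact this
    · simp; norm_num
  simp only [h2]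
  rw [Finset.prod_mul_distrib, Finset.prod_const, Finset.card_univ, Fintype.card_fin, Finset.prod_filter]
  push_cast
  congr 1
  refine Finset.prod_congr rfl fun i _ => ?_
  split_ifs <;> simp

/-- the mean of the square of `Xi` -/
theorem mean_sq (hζ : ∀ i, ‖ζ i‖ = 1) (a : O) :
    ∑ x : Fin k → Bool, ∑ x' : Fin k → Bool, (Xi ζ o a x x') ^ 2 =
      (4 ^ k * ∏ i ∈ univ.filter (fun i => o i = a), ((ζ i).re ^ 2) : ℝ) := by
  have h1 : ∀ x x' : Fin k → Bool, (Xi ζ o a x x') ^ 2 = ∏ i, (if o i = a then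
      (tw (ζ i) (x i) * (starRingEnd ℂ) (tw (ζ i) (x' i))) ^ 2 else 1) := fun x x' => by
    rw [Xi, ← Finset.prod_pow, Finset.prod_filter]
  simp only [h1]
  rw [sumprod (fun i b b' => if o i = a then (tw (ζ i) b * (starRingEnd ℂ) (tw (ζ i) b')) ^ 2 else 1)]
  have h2 : ∀ i, (∑ b, ∑ b', if o i = a then (tw (ζ i) b * (starRingEnd ℂ) (tw (ζ i) b')) ^ 2 else 1) =
      4 * (if o i = a then (((ζ i).re ^ 2 : ℝ) : ℂ) else 1) := by
    intro i
    split_ifs with h
    · rw [u_sq (hζ i)]; push_cast; ring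
    · simp; norm_num
  simp only [h2]
  rw [Finset.prod_mul_distrib, Finset.prod_const, Finset.card_univ, Fintype.card_fin, Finset.prod_filter]
  push_cast
  congr 1
  refine Finset.prod_congr rfl fun i _ => ?_
  split_ifs <;> simp

/-- the mean of the square of `YY` -/
theorem mean_YY (hζ : ∀ i, ‖ζ i‖ = 1) :
    ∑ x : Fin k → Bool, ∑ x' : Fin k → Bool, (YY ζ o x x') ^ 2 =
      4 ^ k * ∏ a, ((1 + ∏ i ∈ univ.filter (fun i => o i = a), ((1 + (ζ i).re) / 2)) / 2) := by
  have h0 : ((∑ x : Fin k → Bool, ∑ x' : Fin k → Bool, (YY ζ o x x') ^ 2 : ℝ) : ℂ) =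
      ((4 ^ k * ∏ a, ((1 + ∏ i ∈ univ.filter (fun i => o i = a), ((1 + (ζ i).re) / 2)) / 2) : ℝ) : ℂ) := by
    have h1 : ∀ x x' : Fin k → Bool, (((YY ζ o x x') ^ 2 : ℝ) : ℂ) = ∑ p : O → Fin 3,
        (∏ a, kp (p a)) * ∏ i, v (p (o i)) (tw (ζ i) (x i) * (starRingEnd ℂ) (tw (ζ i) (x' i))) := by
      intro x x'
      rw [YY_eq, ← Finset.prod_pow, Complex.ofReal_prod]
      simp only [kv (Xi_norm o hζ _ x x')]
      rw [Finset.prod_univ_sum, Fintype.piFinset_univ]
      refine Finset.sum_congr rfl fun p _ => ?_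
      rw [Finset.prod_mul_distrib]
      congr 1
      rw [← Finset.prod_fiberwise univ o]
      refine Finset.prod_congr rfl fun a _ => ?_
      rw [Xi, v_prod]
      refine Finset.prod_congr rfl fun i hi => ?_
      rw [(Finset.mem_filter.1 hi).2]
    push_cast
    have h1' : ∀ x x' : Fin k → Bool, ((YY ζ o x x' : ℝ) : ℂ) ^ 2 = ∑ p : O → Fin 3,
        (∏ a, kp (p a)) * ∏ i, v (p (o i)) (tw (ζ i) (x i) * (starRingEnd ℂ) (tw (ζ i) (x' i))) := fun x x' => by
      rw [← h1]; push_cast; rfl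
    simp only [h1']
    have h2 : ∑ x : Fin k → Bool, ∑ x' : Fin k → Bool, ∑ p : O → Fin 3,
        (∏ a, kp (p a)) * ∏ i, v (p (o i)) (tw (ζ i) (x i) * (starRingEnd ℂ) (tw (ζ i) (x' i))) =
        ∑ p : O → Fin 3, (∏ a, kp (p a)) * ∑ x : Fin k → Bool, ∑ x' : Fin k → Bool,
          ∏ i, v (p (o i)) (tw (ζ i) (x i) * (starRingEnd ℂ) (tw (ζ i) (x' i))) := by
      simp only [Finset.mul_sum]
      rw [Finset.sum_comm]
      conv_lhs =>
        enter [2, y]
        rw [Finset.sum_comm]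
      rw [Finset.sum_comm]
      refine Finset.sum_congr rfl fun p _ => ?_
      rw [Finset.sum_comm]
    rw [h2]
    have h3 : ∀ p : O → Fin 3, ∑ x : Fin k → Bool, ∑ x' : Fin k → Bool,
          ∏ i, v (p (o i)) (tw (ζ i) (x i) * (starRingEnd ℂ) (tw (ζ i) (x' i))) =
          4 ^ k * ∏ a, ∏ i ∈ univ.filter (fun i => o i = a), mm (ζ i).re (p a) := by
      intro p
      rw [sumprod (fun i b b' => v (p (o i)) (tw (ζ i) b * (starRingEnd ℂ) (tw (ζ i) b')))]
      have : ∀ i, ∑ b, ∑ b', v (p (o i)) (tw (ζ i) b * (starRingEnd ℂ) (tw (ζ i) b')) =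
          4 * mm (ζ i).re (p (o i)) := fun i => u_sum (hζ i) _
      simp only [this]
      rw [Finset.prod_mul_distrib, Finset.prod_const, Finset.card_univ, Fintype.card_fin]
      congr 1
      rw [← Finset.prod_fiberwise univ o]
      refine Finset.prod_congr rfl fun a _ => Finset.prod_congr rfl fun i hi => ?_
      rw [(Finset.mem_filter.1 hi).2]
    simp only [h3]
    have h4 : ∀ p : O → Fin 3, (∏ a, kp (p a)) * (4 ^ k * ∏ a, ∏ i ∈ univ.filter (fun i => o i = a),
        mm (ζ i).re (p a)) = 4 ^ k * ∏ a, (kp (p a) * ∏ i ∈ univ.filter (fun i => o i = a), mm (ζ i).re (p a)) := by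
      intro p
      rw [Finset.prod_mul_distrib]; ring
    simp only [h4]
    rw [← Finset.mul_sum]
    congr 1
    have h5 := Finset.prod_univ_sum (fun _ : O => (univ : Finset (Fin 3)))
      (fun a j => kp j * ∏ i ∈ univ.filter (fun i => o i = a), mm (ζ i).re j)
    rw [Fintype.piFinset_univ] at h5
    rw [← h5]
    refine Finset.prod_congr rfl fun a _ => ?_
    rw [Fin.sum_univ_three]
    simp only [kp, mm, if_true, Fin.isValue, one_ne_zero, if_false, Fin.reduceEq, Finset.prod_const_one]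
    push_cast
    ring
  exact_mod_cast h0

end

/-- `∏ (1 - a) (1 + ∑ a) ≤ 1` -/
theorem prod_le {ι : Type} (s : Finset ι) (a : ι → ℝ) (h0 : ∀ i ∈ s, 0 ≤ a i) (h1 : ∀ i ∈ s, a i ≤ 1) :
    0 ≤ ∏ i ∈ s, (1 - a i) ∧ 0 ≤ ∑ i ∈ s, a i ∧ (∏ i ∈ s, (1 - a i)) * (1 + ∑ i ∈ s, a i) ≤ 1 ∧
    1 - ∑ i ∈ s, a i ≤ ∏ i ∈ s, (1 - a i) ∧ ∑ i ∈ s, a i ^ 2 ≤ (∑ i ∈ s, a i) ^ 2 := by
  classical
  induction s using Finset.induction_on with
  | empty => simp
  | insert i s hi ih =>
    obtain ⟨c1, c2, c3, c4, c5⟩ := ih (fun j hj => h0 j (Finset.mem_insert_of_mem hj))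
      (fun j hj => h1 j (Finset.mem_insert_of_mem hj))
    have d0 := h0 i (Finset.mem_insert_self i s)
    have d1 := h1 i (Finset.mem_insert_self i s)
    rw [Finset.prod_insert hi, Finset.sum_insert hi, Finset.sum_insert hi]
    set Q := ∏ j ∈ s, (1 - a j)
    set A := ∑ j ∈ s, a j
    have e0 : 0 ≤ 1 - a i := by linarith
    refine ⟨mul_nonneg e0 c1, add_nonneg d0 c2, ?_, ?_, ?_⟩
    · have : (1 - a i) * Q * (1 + (a i + A)) = Q * (1 + A) - Q * (a i * A + a i ^ 2) := by ring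
      rw [this]
      have : 0 ≤ Q * (a i * A + a i ^ 2) := by positivity
      linarith
    · have hQ1 : 0 ≤ a i * A := mul_nonneg d0 c2
      nlinarith [mul_le_mul_of_nonneg_left c4 e0]
    · nlinarith [mul_nonneg d0 c2]

/-- merging the factors -/
theorem merge {ι : Type} (s : Finset ι) (P : ι → ℝ) (h0 : ∀ i ∈ s, 0 ≤ P i) (h1 : ∀ i ∈ s, P i ≤ 1) :
    0 ≤ ∏ i ∈ s, P i ∧ ∏ i ∈ s, P i ≤ 1 ∧ ∏ i ∈ s, ((1 + P i) / 2) ≤ (1 + ∏ i ∈ s, P i) / 2 := by
  classical
  induction s using Finset.induction_on with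
  | empty => simp
  | insert i s hi ih =>
    obtain ⟨c1, c2, c3⟩ := ih (fun j hj => h0 j (Finset.mem_insert_of_mem hj))
      (fun j hj => h1 j (Finset.mem_insert_of_mem hj))
    have d0 := h0 i (Finset.mem_insert_self i s)
    have d1 := h1 i (Finset.mem_insert_self i s)
    rw [Finset.prod_insert hi, Finset.prod_insert hi]
    set Q := ∏ j ∈ s, P j
    refine ⟨mul_nonneg d0 c1, mul_le_one₀ d1 c1 c2, ?_⟩
    have : (1 + P i) / 2 * ∏ j ∈ s, ((1 + P j) / 2) ≤ (1 + P i) / 2 * ((1 + Q) / 2) :=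
      mul_le_mul_of_nonneg_left c3 (by linarith)
    refine this.trans ?_
    nlinarith [mul_nonneg (sub_nonneg.2 d1) (sub_nonneg.2 c2)]

/-- `1 - ∏ ≤ ∑` -/
theorem one_sub_prod {ι : Type} (s : Finset ι) (y : ι → ℝ) (h0 : ∀ i ∈ s, 0 ≤ y i) (h1 : ∀ i ∈ s, y i ≤ 1) :
    1 - ∏ i ∈ s, y i ≤ ∑ i ∈ s, (1 - y i) := by
  have := (prod_le s (fun i => 1 - y i) (fun i hi => sub_nonneg.2 (h1 i hi))
    (fun i hi => by have := h0 i hi; linarith)).2.2.2.1
  simp only [sub_sub_cancel] at this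
  linarith

theorem t_COL : S_COL := by
  intro k O _ _ ζ o hζ
  -- notation
  have hr : ∀ i, -1 ≤ (ζ i).re ∧ (ζ i).re ≤ 1 := fun i => by
    have := Complex.abs_re_le_norm (ζ i)
    rw [hζ i] at this
    exact abs_le.1 this
  have he : ∀ i, ‖1 - ζ i‖ ^ 2 = 2 - 2 * (ζ i).re := fun i => sq_sub (hζ i)
  have hY : ∀ x x', 0 ≤ YY ζ o x x' ∧ YY ζ o x x' ≤ 1 := fun x x' => by
    rw [YY_eq]
    exact ⟨Finset.prod_nonneg fun a _ => (fac o hζ a x x').1,
      Finset.prod_le_one (fun a _ => (fac o hζ a x x').1) fun a _ => (fac o hζ a x x').2.1⟩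
  have h4 : (2 : ℝ) ^ k * 2 ^ k = 4 ^ k := by rw [← mul_pow]; norm_num
  have hcard : ∑ _x : Fin k → Bool, ∑ _x' : Fin k → Bool, (1 : ℝ) = 4 ^ k := by
    simp only [Finset.sum_const, Finset.card_univ, Fintype.card_fun, Fintype.card_bool, Fintype.card_fin,
      nsmul_eq_mul, mul_one]
    push_cast
    rw [← mul_pow]; norm_num
  set s : ℝ := ∑ i, ‖1 - ζ i‖ ^ 2 with hs
  have hs0 : 0 ≤ s := Finset.sum_nonneg fun i _ => by positivity
  refine ⟨hY, ?_, ?_⟩
  · -- the mean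
    have c1 : ∑ x : Fin k → Bool, ∑ x' : Fin k → Bool, (1 - (YY ζ o x x') ^ 2) / 2 ≤
        ∑ x : Fin k → Bool, ∑ x' : Fin k → Bool, (1 - YY ζ o x x') := by
      refine Finset.sum_le_sum fun x _ => Finset.sum_le_sum fun x' _ => ?_
      obtain ⟨y0, y1⟩ := hY x x'
      nlinarith
    refine le_trans ?_ c1
    have c2 : ∑ x : Fin k → Bool, ∑ x' : Fin k → Bool, (1 - (YY ζ o x x') ^ 2) / 2 =
        (4 ^ k - ∑ x : Fin k → Bool, ∑ x' : Fin k → Bool, (YY ζ o x x') ^ 2) / 2 := by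
      rw [← hcard, ← Finset.sum_sub_distrib, Finset.sum_div]
      refine Finset.sum_congr rfl fun x _ => ?_
      rw [← Finset.sum_sub_distrib, Finset.sum_div]
    rw [c2, mean_YY o hζ, h4]
    set P : O → ℝ := fun a => ∏ i ∈ univ.filter (fun i => o i = a), ((1 + (ζ i).re) / 2) with hP
    have hP0 : ∀ a, 0 ≤ P a := fun a => Finset.prod_nonneg fun i _ => by have := hr i; linarith [this.1]
    have hP1 : ∀ a, P a ≤ 1 := fun a => Finset.prod_le_one (fun i _ => by have := hr i; linarith [this.1])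
      fun i _ => by have := hr i; linarith [this.2]
    have c3 := (merge univ P (fun a _ => hP0 a) (fun a _ => hP1 a)).2.2
    have c4 : ∏ a, P a = ∏ i, (1 - (1 - (ζ i).re) / 2) := by
      rw [← Finset.prod_fiberwise univ o]
      refine Finset.prod_congr rfl fun a _ => Finset.prod_congr rfl fun i _ => by ring
    obtain ⟨q0, q1, q2, -, -⟩ := prod_le univ (fun i => (1 - (ζ i).re) / 2)
      (fun i _ => by have := hr i; linarith [this.2]) (fun i _ => by have := hr i; linarith [this.1])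
    rw [← c4] at q0 q2
    have c5 : ∑ i, (1 - (ζ i).re) / 2 = s / 4 := by
      rw [hs, Finset.sum_div]
      refine Finset.sum_congr rfl fun i _ => ?_
      rw [he i]; ring
    rw [c5] at q1 q2
    set Q : ℝ := ∏ a, P a with hQ
    have c6 : min 1 s / 32 ≤ (1 - (1 + Q) / 2) / 2 := by
      rcases le_total 1 s with h | h
      · rw [min_eq_left h]
        nlinarith
      · rw [min_eq_right h]
        nlinarith
    have c7 : (0 : ℝ) < 4 ^ k := by positivity
    calc min 1 s / 32 * 4 ^ k ≤ (1 - (1 + Q) / 2) / 2 * 4 ^ k := mul_le_mul_of_nonneg_right c6 c7.le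
      _ ≤ (1 - ∏ a, ((1 + P a) / 2)) / 2 * 4 ^ k := by
          refine mul_le_mul_of_nonneg_right ?_ c7.le
          linarith
      _ = (4 ^ k - 4 ^ k * ∏ a, ((1 + P a) / 2)) / 2 := by ring
  · -- the second moment
    rw [h4]
    rcases le_total 1 s with h | h
    · rw [min_eq_left h, one_pow, one_mul, ← hcard]
      refine Finset.sum_le_sum fun x _ => Finset.sum_le_sum fun x' _ => ?_
      obtain ⟨y0, y1⟩ := hY x x'
      nlinarith
    · rw [min_eq_right h]
      set t : O → (Fin k → Bool) × (Fin k → Bool) → ℝ := fun a ω => (1 - (Xi ζ o a ω.1 ω.2).re) / 2 with ht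
      have hre : ∀ a x x', -1 ≤ (Xi ζ o a x x').re ∧ (Xi ζ o a x x').re ≤ 1 := fun a x x' => by
        have := Complex.abs_re_le_norm (Xi ζ o a x x')
        rw [Xi_norm o hζ] at this
        exact abs_le.1 this
      have ht0 : ∀ a ω, 0 ≤ t a ω := fun a ω => by
        have := (hre a ω.1 ω.2).2
        simp only [ht]; linarith
      have d1 : ∀ ω : (Fin k → Bool) × (Fin k → Bool), 1 - YY ζ o ω.1 ω.2 ≤ ∑ a, t a ω := fun ω => by
        rw [YY_eq]
        refine (one_sub_prod univ _ (fun a _ => (fac o hζ a ω.1 ω.2).1) fun a _ => (fac o hζ a ω.1 ω.2).2.1).trans ?_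
        refine Finset.sum_le_sum fun a _ => ?_
        obtain ⟨f0, f1, f2⟩ := fac o hζ a ω.1 ω.2
        have : (‖1 + Xi ζ o a ω.1 ω.2‖ / 2) ^ 2 ≤ ‖1 + Xi ζ o a ω.1 ω.2‖ / 2 := by nlinarith
        simp only [ht]
        linarith
      -- the second moment of `t a`
      set sa : O → ℝ := fun a => ∑ i ∈ univ.filter (fun i => o i = a), ‖1 - ζ i‖ ^ 2 with hsa
      have hsa0 : ∀ a, 0 ≤ sa a := fun a => Finset.sum_nonneg fun i _ => by positivity
      have hsum : ∑ a, sa a = s := by rw [hs, ← Finset.sum_fiberwise univ o]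
      have d2 : ∀ a, ∑ ω, (t a ω) ^ 2 ≤ (2 ^ k * (sa a / 2)) ^ 2 := by
        intro a
        have m1 := mean_Xi o hζ a
        have m2 := mean_sq o hζ a
        have m1' : ∑ x : Fin k → Bool, ∑ x' : Fin k → Bool, (Xi ζ o a x x').re =
            4 ^ k * ∏ i ∈ univ.filter (fun i => o i = a), ((1 + (ζ i).re) / 2) := by
          have := congrArg Complex.re m1
          rw [Complex.ofReal_re, Complex.re_sum] at this
          rw [← this]
          exact Finset.sum_congr rfl fun x _ => (Complex.re_sum _ _).symm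
        have m2' : ∑ x : Fin k → Bool, ∑ x' : Fin k → Bool, ((Xi ζ o a x x') ^ 2).re =
            4 ^ k * ∏ i ∈ univ.filter (fun i => o i = a), ((ζ i).re ^ 2) := by
          have := congrArg Complex.re m2
          rw [Complex.ofReal_re, Complex.re_sum] at this
          rw [← this]
          exact Finset.sum_congr rfl fun x _ => (Complex.re_sum _ _).symm
        have e1 : ∀ ω : (Fin k → Bool) × (Fin k → Bool), (t a ω) ^ 2 = (3 - 4 * (Xi ζ o a ω.1 ω.2).re +
            ((Xi ζ o a ω.1 ω.2) ^ 2).re) / 8 := by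
          intro ω
          have hn := Complex.sq_norm (Xi ζ o a ω.1 ω.2)
          rw [Xi_norm o hζ, Complex.normSq_apply] at hn
          simp only [ht, pow_two, Complex.mul_re]
          linear_combination (-1/8 : ℝ) * hn
        have e2 : ∑ ω, (t a ω) ^ 2 = (3 * 4 ^ k - 4 * (4 ^ k * ∏ i ∈ univ.filter (fun i => o i = a), ((1 + (ζ i).re) / 2)) +
            4 ^ k * ∏ i ∈ univ.filter (fun i => o i = a), ((ζ i).re ^ 2)) / 8 := by
          rw [← m1', ← m2', ← hcard]
          simp only [e1]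
          rw [Fintype.sum_prod_type]
          simp only [Finset.mul_sum]
          rw [← Finset.sum_sub_distrib, ← Finset.sum_add_distrib, Finset.sum_div]
          refine Finset.sum_congr rfl fun x _ => ?_
          rw [← Finset.sum_sub_distrib, ← Finset.sum_add_distrib, Finset.sum_div]
          refine Finset.sum_congr rfl fun x' _ => ?_
          ring
        rw [e2]
        -- numbers
        set S := univ.filter (fun i => o i = a) with hS
        obtain ⟨-, A0, -, A1, A2⟩ := prod_le S (fun i => (1 - (ζ i).re) / 2)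
          (fun i _ => by have := hr i; linarith [this.2]) (fun i _ => by have := hr i; linarith [this.1])
        obtain ⟨B0, B1, B2, -, -⟩ := prod_le S (fun i => 1 - (ζ i).re ^ 2)
          (fun i _ => by have := hr i; nlinarith [this.1, this.2]) (fun i _ => by have := hr i; nlinarith [sq_nonneg (ζ i).re])
        have g1 : ∏ i ∈ S, (1 - (1 - (ζ i).re) / 2) = ∏ i ∈ S, ((1 + (ζ i).re) / 2) :=
          Finset.prod_congr rfl fun i _ => by ring
        have g2 : ∏ i ∈ S, (1 - (1 - (ζ i).re ^ 2)) = ∏ i ∈ S, ((ζ i).re ^ 2) :=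
          Finset.prod_congr rfl fun i _ => by ring
        have g3 : ∑ i ∈ S, (1 - (ζ i).re) / 2 = sa a / 4 := by
          rw [hsa, Finset.sum_div]
          refine Finset.sum_congr rfl fun i _ => ?_
          rw [he i]; ring
        have g4 : ∑ i ∈ S, (1 - (ζ i).re ^ 2) = sa a - 4 * ∑ i ∈ S, ((1 - (ζ i).re) / 2) ^ 2 := by
          have : sa a = ∑ i ∈ S, (2 - 2 * (ζ i).re) := Finset.sum_congr rfl fun i _ => he i
          rw [this, Finset.mul_sum, ← Finset.sum_sub_distrib]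
          refine Finset.sum_congr rfl fun i _ => by ring
        rw [g1] at A1
        rw [g2] at B0 B2
        rw [g3] at A0 A1 A2
        rw [g4] at B1 B2
        set P := ∏ i ∈ S, ((1 + (ζ i).re) / 2)
        set R := ∏ i ∈ S, ((ζ i).re ^ 2)
        set Z := ∑ i ∈ S, ((1 - (ζ i).re) / 2) ^ 2
        have hZ0 : 0 ≤ Z := Finset.sum_nonneg fun i _ => by positivity
        set σ := sa a
        -- R ≤ 1 - X + X ^ 2, X = σ - 4 Z
        have g5 : R ≤ 1 - (σ - 4 * Z) + (σ - 4 * Z) ^ 2 := by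
          have hx : 0 < 1 + (σ - 4 * Z) := by linarith
          have : R * (1 + (σ - 4 * Z)) ≤ (1 - (σ - 4 * Z) + (σ - 4 * Z) ^ 2) * (1 + (σ - 4 * Z)) := by
            have : (1 - (σ - 4 * Z) + (σ - 4 * Z) ^ 2) * (1 + (σ - 4 * Z)) = 1 + (σ - 4 * Z) ^ 3 := by ring
            rw [this]
            have : 0 ≤ (σ - 4 * Z) ^ 3 := by positivity
            linarith
          exact le_of_mul_le_mul_right this hx
        have g6 : (σ - 4 * Z) ^ 2 ≤ σ ^ 2 := by
          have : σ - 4 * Z ≤ σ := by linarith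
          exact pow_le_pow_left₀ B1 this 2
        have g7 : 3 - 4 * P + R ≤ 2 * σ ^ 2 := by
          have : Z ≤ (σ / 4) ^ 2 := A2
          nlinarith
        have h4k : (0 : ℝ) < 4 ^ k := by positivity
        have : (2 ^ k * (σ / 2)) ^ 2 = 4 ^ k * (σ ^ 2 / 4) := by
          rw [mul_pow, ← pow_mul, mul_comm k 2, pow_mul]; norm_num; ring
        rw [this]
        calc (3 * 4 ^ k - 4 * (4 ^ k * P) + 4 ^ k * R) / 8 = 4 ^ k * ((3 - 4 * P + R) / 8) := by ring
          _ ≤ 4 ^ k * (σ ^ 2 / 4) := mul_le_mul_of_nonneg_left (by linarith) h4k.le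
      have d3 : ∀ a b, ∑ ω, t a ω * t b ω ≤ (2 ^ k * (sa a / 2)) * (2 ^ k * (sa b / 2)) := by
        intro a b
        have h5 := Finset.sum_mul_sq_le_sq_mul_sq univ (t a) (t b)
        have h6 : (∑ ω, t a ω * t b ω) ^ 2 ≤ ((2 ^ k * (sa a / 2)) * (2 ^ k * (sa b / 2))) ^ 2 := by
          refine h5.trans ?_
          rw [mul_pow ((2 : ℝ) ^ k * (sa a / 2))]
          exact mul_le_mul (d2 a) (d2 b) (Finset.sum_nonneg fun ω _ => sq_nonneg _) (sq_nonneg _)
        have h7 : 0 ≤ (2 ^ k * (sa a / 2)) * (2 ^ k * (sa b / 2)) := by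
          have := hsa0 a; have := hsa0 b; positivity
        exact (abs_le_of_sq_le_sq' h6 h7).2
      calc ∑ x : Fin k → Bool, ∑ x' : Fin k → Bool, (1 - YY ζ o x x') ^ 2
          = ∑ ω : (Fin k → Bool) × (Fin k → Bool), (1 - YY ζ o ω.1 ω.2) ^ 2 := by rw [Fintype.sum_prod_type]
        _ ≤ ∑ ω, (∑ a, t a ω) ^ 2 := by
            refine Finset.sum_le_sum fun ω _ => ?_
            have := (hY ω.1 ω.2).2
            exact pow_le_pow_left₀ (by linarith) (d1 ω) 2
        _ = ∑ a, ∑ b, ∑ ω, t a ω * t b ω := by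
            simp only [pow_two, Finset.sum_mul_sum]
            rw [Finset.sum_comm]
            refine Finset.sum_congr rfl fun a _ => ?_
            rw [Finset.sum_comm]
        _ ≤ ∑ a, ∑ b, (2 ^ k * (sa a / 2)) * (2 ^ k * (sa b / 2)) :=
            Finset.sum_le_sum fun a _ => Finset.sum_le_sum fun b _ => d3 a b
        _ = (∑ a, 2 ^ k * (sa a / 2)) * (∑ b, 2 ^ k * (sa b / 2)) := by rw [Finset.sum_mul_sum]
        _ = (2 ^ k * (s / 2)) ^ 2 := by
            rw [← hsum, ← Finset.mul_sum, ← Finset.sum_div]; ring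
        _ = s ^ 2 / 4 * 4 ^ k := by
            rw [mul_pow, ← pow_mul, mul_comm k 2, pow_mul]; norm_num; ring
        _ ≤ s ^ 2 * 4 ^ k := by
            refine mul_le_mul_of_nonneg_right ?_ (by positivity)
            nlinarith [sq_nonneg s]

end Pool.Agent.J4H21.GT
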